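import Pool.Agent.H174.GP.StI

/-!
# Persistent and back at zero (integrated Gaussian walk), by helper448
-/

set_option autoImplicit false

open MeasureTheory ProbabilityTheory Finset Filter Topology

namespace Pool.Agent.H448.GP174.B0

open Pool.Agent.H174.GP

/-! ### Elementary facts -/

theorem Iw_zero (ω : ℕ → ℝ) : Iw ω 0 = 0 := by
  unfold Iw
  simp

theorem Iw_succ (ω : ℕ → ℝ) (k : ℕ) : Iw ω (k + 1) = Iw ω k + S ω (k + 1) := by
  unfold Iw
  rw [Finset.sum_Icc_succ_top (by omega)]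

theorem S_succ (ω : ℕ → ℝ) (k : ℕ) : S ω (k + 1) = S ω k + ω (k + 1) := by
  unfold S
  rw [Finset.sum_Icc_succ_top (by omega)]

theorem Iw_sub' (ω : ℕ → ℝ) (m k : ℕ) :
    Iw ω (m + k) - Iw ω m - k * S ω m = ∑ j ∈ Finset.Icc 1 k, (S ω (m + j) - S ω m) := by
  induction k with
  | zero => simp
  | succ k ih =>
    rw [← add_assoc, Iw_succ, Finset.sum_Icc_succ_top (by omega), ← ih]
    push_cast
    rw [← add_assoc]
    ring

theorem S_sub (ω : ℕ → ℝ) (m j : ℕ) : S ω (m + j) - S ω m = ∑ i ∈ Finset.Icc 1 j, ω (i + m) := by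
  induction j with
  | zero => simp
  | succ j ih =>
    rw [← add_assoc, S_succ, Finset.sum_Icc_succ_top (by omega), ← ih,
      show j + 1 + m = m + j + 1 by omega]
    ring

theorem S_meas (j : ℕ) : Measurable fun ω : ℕ → ℝ => S ω j := by
  unfold S
  exact Finset.measurable_sum _ fun i _ => measurable_pi_apply i

theorem Iw_meas (k : ℕ) : Measurable fun ω : ℕ → ℝ => Iw ω k := by
  unfold Iw
  exact Finset.measurable_sum _ fun i _ => S_meas i

theorem meas_all {α : Type} [MeasurableSpace α] (s : Finset ℕ) (P : ℕ → Set α)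
    (h : ∀ i ∈ s, MeasurableSet (P i)) : MeasurableSet {ω | ∀ i ∈ s, ω ∈ P i} := by
  have e : {ω | ∀ i ∈ s, ω ∈ P i} = ⋂ i ∈ s, P i := by
    ext ω
    simp
  rw [e]
  exact MeasurableSet.biInter s.countable_toSet h

theorem S_congr {ω ω' : ℕ → ℝ} {j : ℕ} (h : ∀ i ∈ Finset.Icc 1 j, ω i = ω' i) :
    S ω j = S ω' j := by
  unfold S
  exact Finset.sum_congr rfl h

theorem Iw_congr {ω ω' : ℕ → ℝ} {j : ℕ} (h : ∀ i ∈ Finset.Icc 1 j, ω i = ω' i) :
    Iw ω j = Iw ω' j := by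
  unfold Iw
  refine Finset.sum_congr rfl fun i hi => S_congr fun l hl => h l ?_
  exact Finset.Icc_subset_Icc_right (Finset.mem_Icc.1 hi).2 hl

theorem S_mono {ω ω' : ℕ → ℝ} (h : ω ≤ ω') (j : ℕ) : S ω j ≤ S ω' j := by
  unfold S
  exact Finset.sum_le_sum fun i _ => h i

theorem Iw_mono {ω ω' : ℕ → ℝ} (h : ω ≤ ω') (j : ℕ) : Iw ω j ≤ Iw ω' j := by
  unfold Iw
  exact Finset.sum_le_sum fun i _ => S_mono h i

/-- the integrated walk is nonnegative from `a` to `b` -/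
def Po (a b : ℕ) : Set (ℕ → ℝ) := {z | ∀ j ∈ Finset.Icc a b, 0 ≤ Iw z j}

theorem Po_meas (a b : ℕ) : MeasurableSet (Po a b) :=
  meas_all _ (fun j => {ω | 0 ≤ Iw ω j}) fun j _ => measurableSet_le measurable_const (Iw_meas j)

theorem Po_dep (a b : ℕ) : DepOn (Finset.Icc 1 b) (Po a b) := by
  intro ω ω' h hω j hj
  have h1 := hω j hj
  rwa [Iw_congr fun i hi => h i (Finset.Icc_subset_Icc_right (Finset.mem_Icc.1 hj).2 hi)] at h1

theorem Po_up (a b : ℕ) : IsUpperSet (Po a b) := fun _ _ h hω j hj =>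
  (hω j hj).trans (Iw_mono h j)

/-- the event of the second crude bound -/
def Qe (a b : ℕ) (R : ℝ) : Set (ℕ → ℝ) :=
  {z | (∀ j ∈ Finset.Icc a b, 0 ≤ Iw z j) ∧ R ≤ Iw z b ∧ 0 ≤ S z b}

theorem Qe_meas (a b : ℕ) (R : ℝ) : MeasurableSet (Qe a b R) :=
  (Po_meas a b).inter ((measurableSet_le measurable_const (Iw_meas b)).inter
    (measurableSet_le measurable_const (S_meas b)))

theorem Qe_dep (a b : ℕ) (R : ℝ) : DepOn (Finset.Icc 1 b) (Qe a b R) := by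
  intro ω ω' h hω
  refine ⟨Po_dep a b ω ω' h hω.1, ?_, ?_⟩
  · rw [← Iw_congr h]
    exact hω.2.1
  · rw [← S_congr h]
    exact hω.2.2

theorem Qe_up (a b : ℕ) (R : ℝ) : IsUpperSet (Qe a b R) := fun _ _ h hω =>
  ⟨Po_up a b h hω.1, hω.2.1.trans (Iw_mono h b), hω.2.2.trans (S_mono h b)⟩

theorem harris2 (h3 : S_gharris) (n : ℕ) (F G : Set (ℕ → ℝ)) (hF : MeasurableSet F)
    (hG : MeasurableSet G) (dF : DepOn (Finset.Icc 1 n) F) (dG : DepOn (Finset.Icc 1 n) G)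
    (uF : IsUpperSet F) (uG : IsUpperSet G) : GA.real F * GA.real G ≤ GA.real (F ∩ G) := by
  have h := h3 (Finset.Icc 1 n) (Finset.range 2) (fun i => if i = 0 then F else G)
    (fun i _ => by
      by_cases hi : i = 0
      · simp only [hi, if_true]; exact hF
      · simp only [hi, if_false]; exact hG)
    (fun i _ => by
      by_cases hi : i = 0
      · simp only [hi, if_true]; exact dF
      · simp only [hi, if_false]; exact dG)
    (fun i _ => by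
      by_cases hi : i = 0
      · simp only [hi, if_true]; exact uF
      · simp only [hi, if_false]; exact uG)
  rw [Finset.prod_range_succ, Finset.prod_range_one] at h
  have e : (⋂ i ∈ Finset.range 2, (fun i => if i = 0 then F else G) i) = F ∩ G := by
    ext ω
    simp only [Set.mem_iInter, Finset.mem_range, Set.mem_inter_iff]
    constructor
    · intro h
      exact ⟨by simpa using h 0 (by norm_num), by simpa using h 1 (by norm_num)⟩
    · rintro ⟨h1, h2⟩ i hi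
      by_cases h0 : i = 0
      · simp only [h0, if_true]; exact h1
      · simp only [h0, if_false]; exact h2
  rw [e] at h
  simpa using h

/-! ### Fubini -/

theorem fub {Ω α β : Type} [MeasurableSpace Ω] [MeasurableSpace α] [MeasurableSpace β]
    (μ : Measure Ω) [IsProbabilityMeasure μ] (X : Ω → α) (Y : Ω → β) (hX : Measurable X)
    (hY : Measurable Y) (hXY : IndepFun X Y μ) (E : Set α) (hE : MeasurableSet E)
    (B : Set (α × β)) (hB : MeasurableSet B) (c : ℝ) (hc : 0 ≤ c)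
    (h : ∀ x ∈ E, c ≤ μ.real {ω | (x, Y ω) ∈ B}) :
    c * μ.real (X ⁻¹' E) ≤ μ.real {ω | X ω ∈ E ∧ (X ω, Y ω) ∈ B} := by
  have hmap := (indepFun_iff_map_prod_eq_prod_map_map hX.aemeasurable hY.aemeasurable).1 hXY
  have hC : MeasurableSet ((E ×ˢ (Set.univ : Set β)) ∩ B) := (hE.prod MeasurableSet.univ).inter hB
  have h1 : μ {ω | X ω ∈ E ∧ (X ω, Y ω) ∈ B} =
      ((μ.map X).prod (μ.map Y)) ((E ×ˢ (Set.univ : Set β)) ∩ B) := by
    rw [← hmap, Measure.map_apply (hX.prodMk hY) hC]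
    congr 1
    ext ω
    simp
  have h2 : ENNReal.ofReal c * μ (X ⁻¹' E) ≤ μ {ω | X ω ∈ E ∧ (X ω, Y ω) ∈ B} := by
    have : IsProbabilityMeasure (μ.map Y) := Measure.isProbabilityMeasure_map hY.aemeasurable
    rw [h1, Measure.prod_apply hC]
    calc ENNReal.ofReal c * μ (X ⁻¹' E) = ∫⁻ _ in E, ENNReal.ofReal c ∂(μ.map X) := by
          rw [setLIntegral_const, Measure.map_apply hX hE]
      _ ≤ ∫⁻ x in E, (μ.map Y) (Prod.mk x ⁻¹' ((E ×ˢ (Set.univ : Set β)) ∩ B)) ∂(μ.map X) := by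
          refine setLIntegral_mono' hE fun x hx => ?_
          have e : Prod.mk x ⁻¹' ((E ×ˢ (Set.univ : Set β)) ∩ B) = Prod.mk x ⁻¹' B := by
            ext y
            simp [hx]
          rw [e, Measure.map_apply hY (measurable_prodMk_left hB)]
          refine (ENNReal.ofReal_le_ofReal (h x hx)).trans ?_
          rw [Measure.real, ENNReal.ofReal_toReal (measure_ne_top _ _)]
          exact le_rfl
      _ ≤ ∫⁻ x, (μ.map Y) (Prod.mk x ⁻¹' ((E ×ˢ (Set.univ : Set β)) ∩ B)) ∂(μ.map X) :=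
          setLIntegral_le_lintegral _ _
  have h3 := ENNReal.toReal_mono (measure_ne_top μ _) h2
  rw [ENNReal.toReal_mul, ENNReal.toReal_ofReal hc] at h3
  exact h3

theorem mp_shift (m : ℕ) : MeasurePreserving (fun ω : ℕ → ℝ => fun j => ω (j + m)) GA GA := by
  have hm : Measurable (fun ω : ℕ → ℝ => fun j => ω (j + m)) :=
    measurable_pi_lambda _ fun j => measurable_pi_apply _
  refine ⟨hm, ?_⟩
  refine Measure.eq_infinitePi (μ := fun _ : ℕ => gaussianReal 0 1) ?_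
  intro s t ht
  rw [Measure.map_apply hm (MeasurableSet.pi s.countable_toSet fun i _ => ht i)]
  have hpre : (fun ω : ℕ → ℝ => fun j => ω (j + m)) ⁻¹' (Set.pi (s : Set ℕ) t) =
      Set.pi ((s.image (fun j => j + m) : Finset ℕ) : Set ℕ) (fun i => t (i - m)) := by
    ext ω
    simp only [Set.mem_preimage, Set.mem_pi, Finset.mem_coe, Finset.mem_image]
    constructor
    · rintro h _ ⟨j, hj, rfl⟩
      rw [Nat.add_sub_cancel]
      exact h j hj
    · intro h j hj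
      have := h (j + m) ⟨j, hj, rfl⟩
      rwa [Nat.add_sub_cancel] at this
  rw [hpre]
  unfold GA
  rw [Measure.infinitePi_pi _ (fun i _ => ht (i - m)),
    Finset.prod_image (fun a _ b _ h => Nat.add_right_cancel h)]
  refine Finset.prod_congr rfl fun j _ => ?_
  rw [Nat.add_sub_cancel]

/-- the first `m` coordinates -/
noncomputable def Xr (m : ℕ) (z : ℕ → ℝ) : ℕ → ℝ := fun j => if j ∈ Finset.Icc 1 m then z j else 0

/-- the next `N` coordinates -/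
noncomputable def Yr (m N : ℕ) (z : ℕ → ℝ) : ℕ → ℝ :=
  fun j => if j ∈ Finset.Icc 1 N then z (j + m) else 0

theorem Xr_meas (m : ℕ) : Measurable (Xr m) := by
  refine measurable_pi_lambda _ fun j => ?_
  unfold Xr
  by_cases h : j ∈ Finset.Icc 1 m
  · simp only [h, if_true]
    exact measurable_pi_apply j
  · simp only [h, if_false]
    exact measurable_const

theorem Yr_meas (m N : ℕ) : Measurable (Yr m N) := by
  refine measurable_pi_lambda _ fun j => ?_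
  unfold Yr
  by_cases h : j ∈ Finset.Icc 1 N
  · simp only [h, if_true]
    exact measurable_pi_apply _
  · simp only [h, if_false]
    exact measurable_const

theorem coord_indep : iIndepFun (fun (i : ℕ) (z : ℕ → ℝ) => z i) GA := by
  unfold GA
  exact iIndepFun_infinitePi (P := fun _ : ℕ => gaussianReal 0 1) (X := fun _ x => x)
    (fun _ => measurable_id)

theorem XY_indep (m N : ℕ) : IndepFun (Xr m) (Yr m N) GA := by
  have hd : Disjoint (Finset.Icc 1 m) (Finset.Icc (m + 1) (m + N)) := by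
    rw [Finset.disjoint_left]
    intro a ha hb
    have h1 := (Finset.mem_Icc.1 ha).2
    have h2 := (Finset.mem_Icc.1 hb).1
    omega
  have h := coord_indep.indepFun_finset (Finset.Icc 1 m) (Finset.Icc (m + 1) (m + N)) hd
    (fun i => measurable_pi_apply i)
  have hφ : Measurable (fun (x : (↥(Finset.Icc 1 m) → ℝ)) (j : ℕ) =>
      if h : j ∈ Finset.Icc 1 m then x ⟨j, h⟩ else (0 : ℝ)) := by
    refine measurable_pi_lambda _ fun j => ?_
    by_cases hj : j ∈ Finset.Icc 1 m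
    · simp only [hj, dif_pos]
      exact measurable_pi_apply _
    · simp only [hj, dif_neg, not_false_iff]
      exact measurable_const
  have hin : ∀ j, j ∈ Finset.Icc 1 N → j + m ∈ Finset.Icc (m + 1) (m + N) := by
    intro j hj
    have := Finset.mem_Icc.1 hj
    rw [Finset.mem_Icc]
    omega
  have hψ : Measurable (fun (x : (↥(Finset.Icc (m + 1) (m + N)) → ℝ)) (j : ℕ) =>
      if h : j ∈ Finset.Icc 1 N then x ⟨j + m, hin j h⟩ else (0 : ℝ)) := by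
    refine measurable_pi_lambda _ fun j => ?_
    by_cases hj : j ∈ Finset.Icc 1 N
    · simp only [hj, dif_pos]
      exact measurable_pi_apply _
    · simp only [hj, dif_neg, not_false_iff]
      exact measurable_const
  have h2 := h.comp hφ hψ
  have e1 : (fun (x : (↥(Finset.Icc 1 m) → ℝ)) (j : ℕ) =>
      if h : j ∈ Finset.Icc 1 m then x ⟨j, h⟩ else (0 : ℝ)) ∘
      (fun (a : ℕ → ℝ) (i : ↥(Finset.Icc 1 m)) => a i) = Xr m := by
    funext z j
    show (if h : j ∈ Finset.Icc 1 m then (fun i : ↥(Finset.Icc 1 m) => z i) ⟨j, h⟩ else (0 : ℝ)) =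
      if j ∈ Finset.Icc 1 m then z j else 0
    by_cases hj : j ∈ Finset.Icc 1 m
    · rw [dif_pos hj, if_pos hj]
    · rw [dif_neg hj, if_neg hj]
  have e2 : (fun (x : (↥(Finset.Icc (m + 1) (m + N)) → ℝ)) (j : ℕ) =>
      if h : j ∈ Finset.Icc 1 N then x ⟨j + m, hin j h⟩ else (0 : ℝ)) ∘
      (fun (a : ℕ → ℝ) (i : ↥(Finset.Icc (m + 1) (m + N))) => a i) = Yr m N := by
    funext z j
    show (if h : j ∈ Finset.Icc 1 N then
      (fun i : ↥(Finset.Icc (m + 1) (m + N)) => z i) ⟨j + m, hin j h⟩ else (0 : ℝ)) =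
      if j ∈ Finset.Icc 1 N then z (j + m) else 0
    by_cases hj : j ∈ Finset.Icc 1 N
    · rw [dif_pos hj, if_pos hj]
    · rw [dif_neg hj, if_neg hj]
  rw [e1, e2] at h2
  exact h2

theorem Yr_law (m N : ℕ) (G : Set (ℕ → ℝ)) (hG : MeasurableSet G)
    (dG : DepOn (Finset.Icc 1 N) G) : GA.real {z | Yr m N z ∈ G} = GA.real G := by
  have e : {z | Yr m N z ∈ G} = (fun ω : ℕ → ℝ => fun j => ω (j + m)) ⁻¹' G := by
    ext z
    have hz : ∀ j ∈ Finset.Icc 1 N, Yr m N z j = z (j + m) := fun j hj => by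
      unfold Yr
      rw [if_pos hj]
    constructor
    · intro h
      exact dG _ _ hz h
    · intro h
      exact dG _ _ (fun j hj => (hz j hj).symm) h
  rw [e, Measure.real, (mp_shift m).measure_preimage hG.nullMeasurableSet]
  rfl

theorem S_Xr (m j : ℕ) (hj : j ≤ m) (z : ℕ → ℝ) : S (Xr m z) j = S z j := by
  refine S_congr fun i hi => ?_
  unfold Xr
  rw [if_pos (Finset.Icc_subset_Icc_right hj hi)]

theorem Iw_Xr (m j : ℕ) (hj : j ≤ m) (z : ℕ → ℝ) : Iw (Xr m z) j = Iw z j := by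
  refine Iw_congr fun i hi => ?_
  unfold Xr
  rw [if_pos (Finset.Icc_subset_Icc_right hj hi)]

theorem S_Yr (m N j : ℕ) (hj : j ≤ N) (z : ℕ → ℝ) : S (Yr m N z) j = S z (m + j) - S z m := by
  rw [S_sub]
  unfold S
  refine Finset.sum_congr rfl fun i hi => ?_
  unfold Yr
  rw [if_pos (Finset.Icc_subset_Icc_right hj hi)]

/-! ### The main steps -/

/-- the persistent event with a large integral and a small final value -/
def Ee (m2 : ℕ) (R y : ℝ) : Set (ℕ → ℝ) := Qe 1 m2 R ∩ {z | S z m2 ≤ y}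

theorem Ee_meas (m2 : ℕ) (R y : ℝ) : MeasurableSet (Ee m2 R y) :=
  (Qe_meas 1 m2 R).inter (measurableSet_le (S_meas m2) measurable_const)

/-- the target -/
def Tg (m : ℕ) : Set (ℕ → ℝ) :=
  {z | (∀ j ∈ Finset.Icc 1 (m - 1), 0 ≤ Iw z j) ∧ -1 ≤ S z m ∧ S z m < 0}

/-- the bridge step: Fubini -/
theorem bridge (hb : S_brid) (m m2 N : ℕ) (hm : m2 + N = m) (hN : 1 ≤ N) (R y : ℝ)
    (hR : (N : ℝ) * (1 + 20 * Real.sqrt N) ≤ R) :
    1 / 2 * (1 / Real.sqrt (2 * Real.pi * N) * Real.exp (-((y + 1) ^ 2 / (2 * N)))) *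
      GA.real (Ee m2 R y) ≤ GA.real (Tg m) := by
  set B : Set ((ℕ → ℝ) × (ℕ → ℝ)) := {p | -(S p.1 m2) - 1 ≤ S p.2 N ∧ S p.2 N < -(S p.1 m2) ∧
    ∀ j ∈ Finset.Icc 1 N, -1 - 20 * Real.sqrt N ≤ S p.1 m2 + S p.2 j} with hBdef
  have m1 : Measurable (fun p : (ℕ → ℝ) × (ℕ → ℝ) => S p.1 m2) := (S_meas m2).comp measurable_fst
  have m2' : ∀ j, Measurable (fun p : (ℕ → ℝ) × (ℕ → ℝ) => S p.2 j) := fun j =>
    (S_meas j).comp measurable_snd
  have hB : MeasurableSet B := by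
    have a1 : MeasurableSet {p : (ℕ → ℝ) × (ℕ → ℝ) | -(S p.1 m2) - 1 ≤ S p.2 N} :=
      measurableSet_le (m1.neg.sub_const 1) (m2' N)
    have a2 : MeasurableSet {p : (ℕ → ℝ) × (ℕ → ℝ) | S p.2 N < -(S p.1 m2)} :=
      measurableSet_lt (m2' N) m1.neg
    have a3 : MeasurableSet {p : (ℕ → ℝ) × (ℕ → ℝ) |
        ∀ j ∈ Finset.Icc 1 N, -1 - 20 * Real.sqrt N ≤ S p.1 m2 + S p.2 j} :=
      meas_all _ (fun j => {p : (ℕ → ℝ) × (ℕ → ℝ) | -1 - 20 * Real.sqrt N ≤ S p.1 m2 + S p.2 j})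
        fun j _ => measurableSet_le measurable_const (m1.add (m2' j))
    exact a1.inter (a2.inter a3)
  have hXE : Xr m2 ⁻¹' (Ee m2 R y) = Ee m2 R y := by
    ext z
    have e1 : ∀ j ∈ Finset.Icc 1 m2, Iw (Xr m2 z) j = Iw z j := fun j hj =>
      Iw_Xr m2 j (Finset.mem_Icc.1 hj).2 z
    show (((∀ j ∈ Finset.Icc 1 m2, 0 ≤ Iw (Xr m2 z) j) ∧ R ≤ Iw (Xr m2 z) m2 ∧
        0 ≤ S (Xr m2 z) m2) ∧ S (Xr m2 z) m2 ≤ y) ↔
      (((∀ j ∈ Finset.Icc 1 m2, 0 ≤ Iw z j) ∧ R ≤ Iw z m2 ∧ 0 ≤ S z m2) ∧ S z m2 ≤ y)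
    rw [Iw_Xr m2 m2 le_rfl, S_Xr m2 m2 le_rfl]
    have e2 : (∀ j ∈ Finset.Icc 1 m2, 0 ≤ Iw (Xr m2 z) j) ↔ (∀ j ∈ Finset.Icc 1 m2, 0 ≤ Iw z j) :=
      forall₂_congr fun j hj => by rw [e1 j hj]
    rw [e2]
  have hfib : ∀ x ∈ Ee m2 R y,
      1 / 2 * (1 / Real.sqrt (2 * Real.pi * N) * Real.exp (-((y + 1) ^ 2 / (2 * N)))) ≤
        GA.real {z | (x, Yr m2 N z) ∈ B} := by
    intro x hx
    obtain ⟨v, hv⟩ : ∃ v : ℝ, v = S x m2 := ⟨_, rfl⟩
    have hv0 : 0 ≤ v := by rw [hv]; exact hx.1.2.2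
    have hvy : v ≤ y := by rw [hv]; exact hx.2
    have h1 := hb N v hN hv0
    set G : Set (ℕ → ℝ) := {z | -v - 1 ≤ S z N ∧ S z N < -v ∧
      ∀ j ∈ Finset.Icc 1 N, -1 - 20 * Real.sqrt N ≤ v + S z j} with hG
    have hGm : MeasurableSet G := by
      have a1 : MeasurableSet {z : ℕ → ℝ | -v - 1 ≤ S z N} :=
        measurableSet_le measurable_const (S_meas N)
      have a2 : MeasurableSet {z : ℕ → ℝ | S z N < -v} :=
        measurableSet_lt (S_meas N) measurable_const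
      have a3 : MeasurableSet {z : ℕ → ℝ |
          ∀ j ∈ Finset.Icc 1 N, -1 - 20 * Real.sqrt N ≤ v + S z j} :=
        meas_all _ (fun j => {z : ℕ → ℝ | -1 - 20 * Real.sqrt N ≤ v + S z j})
          fun j _ => measurableSet_le measurable_const (measurable_const.add (S_meas j))
      exact a1.inter (a2.inter a3)
    have hGd : DepOn (Finset.Icc 1 N) G := by
      intro ω ω' h hω
      obtain ⟨b1, b2, b3⟩ := hω
      refine ⟨?_, ?_, fun j hj => ?_⟩
      · rw [← S_congr h]; exact b1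
      · rw [← S_congr h]; exact b2
      · have h4 := b3 j hj
        rwa [S_congr fun i hi => h i (Finset.Icc_subset_Icc_right (Finset.mem_Icc.1 hj).2 hi)] at h4
    have h2 : {z | (x, Yr m2 N z) ∈ B} = {z | Yr m2 N z ∈ G} := by
      ext z
      show (-(S x m2) - 1 ≤ S (Yr m2 N z) N ∧ S (Yr m2 N z) N < -(S x m2) ∧
        ∀ j ∈ Finset.Icc 1 N, -1 - 20 * Real.sqrt N ≤ S x m2 + S (Yr m2 N z) j) ↔ _
      rw [← hv]
      exact Iff.rfl
    rw [h2, Yr_law m2 N G hGm hGd]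
    refine le_trans ?_ h1
    have hN0 : (0 : ℝ) < N := by exact_mod_cast hN
    have h5 : Real.exp (-((y + 1) ^ 2 / (2 * N))) ≤ Real.exp (-((v + 1) ^ 2 / (2 * N))) := by
      refine Real.exp_le_exp.2 (neg_le_neg ?_)
      refine div_le_div_of_nonneg_right ?_ (by positivity)
      exact pow_le_pow_left₀ (by linarith) (by linarith) 2
    exact mul_le_mul_of_nonneg_left (mul_le_mul_of_nonneg_left h5 (by positivity)) (by norm_num)
  have hf := fub GA (Xr m2) (Yr m2 N) (Xr_meas m2) (Yr_meas m2 N) (XY_indep m2 N) (Ee m2 R y)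
    (Ee_meas m2 R y) B hB _ (by positivity) hfib
  rw [hXE] at hf
  refine hf.trans (measureReal_mono ?_ (measure_ne_top _ _))
  rintro z ⟨hz1, hz2⟩
  have hz1' : z ∈ Ee m2 R y := by
    have : z ∈ Xr m2 ⁻¹' (Ee m2 R y) := hz1
    rwa [hXE] at this
  obtain ⟨⟨p1, p2, p3⟩, p4⟩ := hz1'
  obtain ⟨q1, q2, q3⟩ := hz2
  simp only at q1 q2 q3
  rw [S_Xr m2 m2 le_rfl, S_Yr m2 N N le_rfl, hm] at q1 q2
  refine ⟨fun j hj => ?_, by linarith, by linarith⟩
  have hj' := Finset.mem_Icc.1 hj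
  by_cases hjm : j ≤ m2
  · exact p1 j (Finset.mem_Icc.2 ⟨hj'.1, hjm⟩)
  · obtain ⟨k, rfl⟩ : ∃ k, j = m2 + k := ⟨j - m2, by omega⟩
    have hkN : k ≤ N := by omega
    have h6 := Iw_sub' z m2 k
    have h7 : ∑ i ∈ Finset.Icc 1 k, (S z (m2 + i) - S z m2) ≥
        ∑ _i ∈ Finset.Icc 1 k, (-1 - 20 * Real.sqrt N - S z m2) := by
      refine Finset.sum_le_sum fun i hi => ?_
      have hi' := Finset.mem_Icc.1 hi
      have h8 := q3 i (Finset.mem_Icc.2 ⟨hi'.1, hi'.2.trans hkN⟩)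
      rw [S_Xr m2 m2 le_rfl, S_Yr m2 N i (hi'.2.trans hkN)] at h8
      linarith
    rw [Finset.sum_const, Nat.card_Icc, Nat.add_sub_cancel, nsmul_eq_mul] at h7
    have h9 : (k : ℝ) * (1 + 20 * Real.sqrt N) ≤ (N : ℝ) * (1 + 20 * Real.sqrt N) :=
      mul_le_mul_of_nonneg_right (by exact_mod_cast hkN) (by positivity)
    have h10 : (k : ℝ) * (-1 - 20 * Real.sqrt N - S z m2) =
        -((k : ℝ) * (1 + 20 * Real.sqrt N)) - k * S z m2 := by ring
    rw [h10] at h7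
    linarith

/-- upper bound for the event that the final value is large -/
theorem large (h4 : S_gindep) (h5 : S_gmaxS) (m1 m2 : ℕ) (R y : ℝ) (hm1 : 1 ≤ m1) (hm : m1 < m2)
    (hy : 0 ≤ y) :
    GA.real (Qe 1 m2 R ∩ {z | 2 * y < S z m2}) ≤
      4 * Real.exp (-(y ^ 2 / (2 * (m1 : ℝ)))) +
        aG m1 * (4 * Real.exp (-(y ^ 2 / (2 * ((m2 : ℝ) - m1))))) := by
  set F1 : Set (ℕ → ℝ) := {z | ∃ l ∈ Finset.Icc 0 m1, y ≤ |S z l - S z 0|} with hF1
  set F2 : Set (ℕ → ℝ) := {z | ∃ l ∈ Finset.Icc m1 m2, y ≤ |S z l - S z m1|} with hF2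
  have hF2m : MeasurableSet F2 := by
    have e : F2 = {z | ∀ l ∈ Finset.Icc m1 m2, z ∈ {z : ℕ → ℝ | |S z l - S z m1| < y}}ᶜ := by
      ext z
      simp only [hF2, Set.mem_ofPred_eq, Set.mem_compl_iff]
      push Not
      rfl
    rw [e]
    refine (meas_all _ _ fun l _ => ?_).compl
    exact measurableSet_lt ((S_meas l).sub (S_meas m1)).abs measurable_const
  have hF2d : DepOn (Finset.Icc (m1 + 1) m2) F2 := by
    rintro ω ω' h ⟨l, hl, hω⟩
    refine ⟨l, hl, ?_⟩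
    have hl' := Finset.mem_Icc.1 hl
    obtain ⟨k, rfl⟩ : ∃ k, l = m1 + k := ⟨l - m1, by omega⟩
    rw [S_sub] at hω ⊢
    rwa [Finset.sum_congr rfl fun i hi => h (i + m1) (by
      have hi' := Finset.mem_Icc.1 hi
      rw [Finset.mem_Icc]
      omega)] at hω
  have hsub : Qe 1 m2 R ∩ {z | 2 * y < S z m2} ⊆ F1 ∪ (Po 1 m1 ∩ F2) := by
    rintro z ⟨hz1, hz2⟩
    have hz2' : 2 * y < S z m2 := hz2
    by_cases h : y ≤ |S z m1 - S z 0|
    · exact Or.inl ⟨m1, Finset.mem_Icc.2 ⟨Nat.zero_le _, le_rfl⟩, h⟩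
    · right
      push Not at h
      have h0 : S z 0 = 0 := by
        unfold S
        simp
      rw [h0, sub_zero] at h
      have h1 := (abs_lt.1 h).2
      refine ⟨fun j hj => hz1.1 j (Finset.Icc_subset_Icc_right hm.le hj), m2,
        Finset.mem_Icc.2 ⟨hm.le, le_rfl⟩, ?_⟩
      exact le_trans (by linarith) (le_abs_self _)
  have hd : Disjoint (Finset.Icc 1 m1) (Finset.Icc (m1 + 1) m2) := by
    rw [Finset.disjoint_left]
    intro a ha hb
    have h1 := (Finset.mem_Icc.1 ha).2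
    have h2 := (Finset.mem_Icc.1 hb).1
    omega
  calc GA.real (Qe 1 m2 R ∩ {z | 2 * y < S z m2}) ≤ GA.real (F1 ∪ (Po 1 m1 ∩ F2)) :=
        measureReal_mono hsub (measure_ne_top _ _)
    _ ≤ GA.real F1 + GA.real (Po 1 m1 ∩ F2) := measureReal_union_le _ _
    _ = GA.real F1 + GA.real (Po 1 m1) * GA.real F2 := by
        rw [h4 _ _ _ _ hd (Po_meas 1 m1) hF2m (Po_dep 1 m1) hF2d]
    _ ≤ _ := by
        have a1 := h5 0 m1 y (by omega) hy
        have a2 := h5 m1 m2 y hm hy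
        rw [Nat.cast_zero, sub_zero] at a1
        have a3 : (0 : ℝ) ≤ GA.real (Po 1 m1) := measureReal_nonneg
        exact add_le_add a1 (mul_le_mul_of_nonneg_left a2 a3)

theorem steps (h3 : S_gharris) (h4 : S_gindep) (h5 : S_gmaxS) {ca c2 c3 κ κ1 s : ℝ}
    (hc2 : 0 < c2) (hκ0 : 0 < κ) (hκ4 : κ ≤ 1 / 4) (hκs : κ * (4 * κ1) ≤ s)
    (hs : 0 < s) (hA : ∀ n : ℕ, 1 ≤ n → ca * (n : ℝ) ^ (-κ1) ≤ aG n)
    (hQ2 : ∀ a b : ℕ, 1 ≤ a → a ≤ b → 1 / 2 * (b : ℝ) ≤ a →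
      c2 ≤ GA.real (Qe a b (120 * (b : ℝ) ^ (3 / 2 : ℝ))))
    (hQ3 : ∀ a b : ℕ, 1 ≤ a → a ≤ b → κ / 2 * (b : ℝ) ≤ a →
      c3 ≤ GA.real (Qe a b (1 * (b : ℝ) ^ (3 / 2 : ℝ)))) (m : ℕ) (hm4 : 4 ≤ m)
    (hκm : 2 / κ ≤ m) (t1 : (m : ℝ) ^ (-κ1) ≤ c2 * ca / 16) (t2 : (m : ℝ) ^ (-s) ≤ c2 * c3 / 16) :
    c2 / 2 * aG m ≤ GA.real (Ee (m / 2) (22 * (m * Real.sqrt m))
      (2 * Real.sqrt (s * (m * Real.log m)))) := by
  have hmR : (4 : ℝ) ≤ m := by exact_mod_cast hm4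
  have hm0 : (0 : ℝ) < m := by linarith
  have hlog : 0 < Real.log m := Real.log_pos (by linarith)
  obtain ⟨m2, hm2⟩ : ∃ m2, m2 = m / 2 := ⟨_, rfl⟩
  obtain ⟨m1, hm1⟩ : ∃ m1, m1 = ⌊κ * m⌋₊ := ⟨_, rfl⟩
  obtain ⟨y, hy⟩ : ∃ y, y = Real.sqrt (s * (m * Real.log m)) := ⟨_, rfl⟩
  obtain ⟨R, hR⟩ : ∃ R, R = 22 * (m * Real.sqrt m) := ⟨_, rfl⟩
  rw [← hm2, ← hy, ← hR]
  have hy0 : 0 ≤ y := by rw [hy]; exact Real.sqrt_nonneg _
  have hysq : y ^ 2 = s * (m * Real.log m) := by rw [hy]; exact Real.sq_sqrt (by positivity)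
  -- sizes
  have a1 : (m2 : ℝ) ≤ m / 2 := by
    have : 2 * m2 ≤ m := by omega
    have h : (2 : ℝ) * m2 ≤ m := by exact_mod_cast this
    linarith
  have a2 : (m : ℝ) ≤ 3 * m2 := by
    have : m ≤ 3 * m2 := by omega
    exact_mod_cast this
  have a2' : (m : ℝ) ≤ 2 * m2 + 1 := by
    have : m ≤ 2 * m2 + 1 := by omega
    exact_mod_cast this
  have b0 : 2 ≤ κ * m := by
    rw [div_le_iff₀ hκ0] at hκm
    linarith
  have b1 : (m1 : ℝ) ≤ κ * m := by rw [hm1]; exact Nat.floor_le (by positivity)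
  have b2 : κ * m - 1 < m1 := by rw [hm1]; exact Nat.sub_one_lt_floor _
  have b3 : κ / 2 * m ≤ m1 := by linarith
  have b4 : 1 ≤ m1 := by
    have : (0 : ℝ) < m1 := by linarith
    exact_mod_cast this
  have b5 : (m1 : ℝ) ≤ m / 4 := by
    have := mul_le_mul_of_nonneg_right hκ4 hm0.le
    linarith
  have b6 : m1 < m2 := by
    have : (m1 : ℝ) < m2 := by linarith
    exact_mod_cast this
  have hm1R : (0 : ℝ) < m1 := by exact_mod_cast b4
  have haG0 : 0 ≤ aG m := measureReal_nonneg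
  -- S1
  have s1 : c2 * aG m ≤ GA.real (Qe 1 m2 R) := by
    have e1 := hQ2 ((m2 + 1) / 2) m2 (by omega) (by omega) (by
      have : m2 ≤ 2 * ((m2 + 1) / 2) := by omega
      have h : (m2 : ℝ) ≤ 2 * (((m2 + 1) / 2 : ℕ) : ℝ) := by exact_mod_cast this
      linarith)
    have e2 := harris2 h3 m2 (Po 1 m2) (Qe ((m2 + 1) / 2) m2 (120 * (m2 : ℝ) ^ (3 / 2 : ℝ)))
      (Po_meas _ _) (Qe_meas _ _ _) (Po_dep _ _) (Qe_dep _ _ _) (Po_up _ _) (Qe_up _ _ _)
    have e3 : aG m ≤ GA.real (Po 1 m2) := by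
      refine measureReal_mono (fun z hz j hj => hz j ?_) (measure_ne_top _ _)
      have := Finset.mem_Icc.1 hj
      rw [Finset.mem_Icc]
      omega
    have e4 : R ≤ 120 * (m2 : ℝ) ^ (3 / 2 : ℝ) := by
      have hm2R : (0 : ℝ) < m2 := by linarith
      have f1 : (m2 : ℝ) ^ (3 / 2 : ℝ) = m2 * Real.sqrt m2 := by
        rw [show (3 / 2 : ℝ) = 1 + 1 / 2 by norm_num, Real.rpow_add hm2R, Real.rpow_one,
          Real.sqrt_eq_rpow]
      have f2 : 4 / 7 * Real.sqrt m ≤ Real.sqrt m2 := by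
        refine Real.le_sqrt_of_sq_le ?_
        rw [mul_pow, Real.sq_sqrt hm0.le]
        linarith
      have f3 : 0 ≤ Real.sqrt m := Real.sqrt_nonneg _
      rw [f1, hR]
      have f4 : (m : ℝ) / 3 * (4 / 7 * Real.sqrt m) ≤ m2 * Real.sqrt m2 :=
        mul_le_mul (by linarith) f2 (by positivity) hm2R.le
      have f5 : 0 ≤ (m : ℝ) * Real.sqrt m := by positivity
      have f6 : (m : ℝ) / 3 * (4 / 7 * Real.sqrt m) = 4 / 21 * (m * Real.sqrt m) := by ring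
      rw [f6] at f4
      linarith
    have e5 : GA.real (Po 1 m2 ∩ Qe ((m2 + 1) / 2) m2 (120 * (m2 : ℝ) ^ (3 / 2 : ℝ))) ≤
        GA.real (Qe 1 m2 R) := by
      refine measureReal_mono ?_ (measure_ne_top _ _)
      rintro z ⟨g1, g2⟩
      exact ⟨g1, e4.trans g2.2.1, g2.2.2⟩
    calc c2 * aG m ≤ GA.real (Qe ((m2 + 1) / 2) m2 (120 * (m2 : ℝ) ^ (3 / 2 : ℝ))) *
          GA.real (Po 1 m2) := mul_le_mul e1 e3 haG0 measureReal_nonneg
      _ = GA.real (Po 1 m2) * GA.real (Qe ((m2 + 1) / 2) m2 (120 * (m2 : ℝ) ^ (3 / 2 : ℝ))) :=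
          mul_comm _ _
      _ ≤ _ := e2.trans e5
  -- S2
  have s2 : aG m1 * c3 ≤ aG m := by
    have e1 := hQ3 m1 m b4 (by omega) b3
    have e2 := harris2 h3 m (Po 1 m1) (Qe m1 m (1 * (m : ℝ) ^ (3 / 2 : ℝ)))
      (Po_meas _ _) (Qe_meas _ _ _) (fun ω ω' h hω => Po_dep 1 m1 ω ω' (fun j hj => h j (by
        have := Finset.mem_Icc.1 hj
        rw [Finset.mem_Icc]
        omega)) hω) (Qe_dep _ _ _) (Po_up _ _) (Qe_up _ _ _)
    have e3 : GA.real (Po 1 m1 ∩ Qe m1 m (1 * (m : ℝ) ^ (3 / 2 : ℝ))) ≤ aG m := by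
      refine measureReal_mono ?_ (measure_ne_top _ _)
      rintro z ⟨g1, g2⟩ j hj
      have hj' := Finset.mem_Icc.1 hj
      by_cases hjm : j ≤ m1
      · exact g1 j (Finset.mem_Icc.2 ⟨hj'.1, hjm⟩)
      · exact g2.1 j (Finset.mem_Icc.2 ⟨by omega, hj'.2⟩)
    have e4 : aG m1 * c3 ≤ GA.real (Po 1 m1) * GA.real (Qe m1 m (1 * (m : ℝ) ^ (3 / 2 : ℝ))) :=
      mul_le_mul_of_nonneg_left e1 measureReal_nonneg
    exact e4.trans (e2.trans e3)
  -- S3
  have s3 := large h4 h5 m1 m2 R y b4 b6 hy0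
  have u1 : Real.exp (-(y ^ 2 / (2 * (m1 : ℝ)))) ≤ (m : ℝ) ^ (-κ1) * (m : ℝ) ^ (-κ1) := by
    rw [← Real.rpow_add hm0, Real.rpow_def_of_pos hm0]
    refine Real.exp_le_exp.2 ?_
    have : 2 * κ1 * Real.log m ≤ y ^ 2 / (2 * (m1 : ℝ)) := by
      rw [le_div_iff₀ (by positivity), hysq]
      have g1 : 4 * κ1 * m1 ≤ s * m := by
        by_cases hk : 0 ≤ κ1
        · calc 4 * κ1 * (m1 : ℝ) ≤ 4 * κ1 * (κ * m) := mul_le_mul_of_nonneg_left b1 (by positivity)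
            _ = κ * (4 * κ1) * m := by ring
            _ ≤ s * m := mul_le_mul_of_nonneg_right hκs hm0.le
        · push Not at hk
          have g2 : 4 * κ1 * (m1 : ℝ) ≤ 0 :=
            mul_nonpos_of_nonpos_of_nonneg (by linarith) hm1R.le
          have g3 : 0 ≤ s * m := by positivity
          linarith
      have g4 := mul_le_mul_of_nonneg_right g1 hlog.le
      nlinarith
    linarith
  have u2 : Real.exp (-(y ^ 2 / (2 * ((m2 : ℝ) - m1)))) ≤ (m : ℝ) ^ (-s) := by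
    rw [Real.rpow_def_of_pos hm0]
    refine Real.exp_le_exp.2 ?_
    have hd : (0 : ℝ) < (m2 : ℝ) - m1 := by
      have : (m1 : ℝ) < m2 := by exact_mod_cast b6
      linarith
    have : s * Real.log m ≤ y ^ 2 / (2 * ((m2 : ℝ) - m1)) := by
      rw [le_div_iff₀ (by positivity), hysq]
      have g1 : 2 * ((m2 : ℝ) - m1) ≤ m := by linarith
      have g2 := mul_le_mul_of_nonneg_left g1 (by positivity : 0 ≤ s * Real.log m)
      linarith
    linarith
  have v1 : 4 * Real.exp (-(y ^ 2 / (2 * (m1 : ℝ)))) ≤ c2 / 4 * aG m := by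
    have g1 := hA m (by omega)
    have g2 : 0 ≤ (m : ℝ) ^ (-κ1) := Real.rpow_nonneg hm0.le _
    have g3 : (m : ℝ) ^ (-κ1) * (m : ℝ) ^ (-κ1) ≤ c2 * ca / 16 * (m : ℝ) ^ (-κ1) :=
      mul_le_mul_of_nonneg_right t1 g2
    have g4 : c2 / 4 * (ca * (m : ℝ) ^ (-κ1)) ≤ c2 / 4 * aG m :=
      mul_le_mul_of_nonneg_left g1 (by positivity)
    have g5 : c2 * ca / 16 * (m : ℝ) ^ (-κ1) = c2 / 4 * (ca * (m : ℝ) ^ (-κ1)) / 4 := by ring
    linarith
  have v2 : aG m1 * (4 * Real.exp (-(y ^ 2 / (2 * ((m2 : ℝ) - m1))))) ≤ c2 / 4 * aG m := by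
    have g0 : 0 ≤ aG m1 := measureReal_nonneg
    calc aG m1 * (4 * Real.exp (-(y ^ 2 / (2 * ((m2 : ℝ) - m1))))) ≤
          aG m1 * (4 * (c2 * c3 / 16)) :=
        mul_le_mul_of_nonneg_left (mul_le_mul_of_nonneg_left (u2.trans t2) (by norm_num)) g0
      _ = c2 / 4 * (aG m1 * c3) := by ring
      _ ≤ c2 / 4 * aG m := mul_le_mul_of_nonneg_left s2 (by positivity)
  -- S4
  have s4 : GA.real (Qe 1 m2 R) ≤ GA.real (Ee m2 R (2 * y)) +
      GA.real (Qe 1 m2 R ∩ {z | 2 * y < S z m2}) := by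
    refine le_trans (measureReal_mono ?_ (measure_ne_top _ _)) (measureReal_union_le _ _)
    intro z hz
    by_cases h : S z m2 ≤ 2 * y
    · exact Or.inl ⟨hz, h⟩
    · exact Or.inr ⟨hz, not_le.1 h⟩
  linarith

end Pool.Agent.H448.GP174.B0

namespace Pool.Agent.H448.GP174

open Pool.Agent.H174.GP

theorem gp_back0 (h1 : S_acr) (h2 : S_brid) (h3 : S_gharris) (h4 : S_gindep) (h5 : S_gmaxS) :
    Pool.Agent.H174.GP.S_back0 := by
  intro ε hε
  obtain ⟨⟨ca, hca, κ1, hκ1, hA⟩, hQ⟩ := h1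
  obtain ⟨s, hs⟩ : ∃ s : ℝ, s = ε / 16 := ⟨_, rfl⟩
  have hs0 : 0 < s := by rw [hs]; positivity
  obtain ⟨κ, hκ⟩ : ∃ κ : ℝ, κ = min (1 / 4) (s / (4 * κ1)) := ⟨_, rfl⟩
  have hκ0 : 0 < κ := by rw [hκ]; exact lt_min (by norm_num) (by positivity)
  have hκ4 : κ ≤ 1 / 4 := by rw [hκ]; exact min_le_left _ _
  have hκs : κ * (4 * κ1) ≤ s := by
    have : κ ≤ s / (4 * κ1) := by rw [hκ]; exact min_le_right _ _
    exact (le_div_iff₀ (by positivity)).1 this
  obtain ⟨c2, hc2, hQ2⟩ := hQ (1 / 2) 120 (by norm_num) (by norm_num) (by norm_num)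
  obtain ⟨c3, hc3, hQ3⟩ := hQ (κ / 2) 1 (by positivity) (by linarith) (by norm_num)
  have ev : ∀ x δ : ℝ, 0 < x → 0 < δ → ∀ᶠ m : ℕ in atTop, (m : ℝ) ^ (-x) ≤ δ := fun x δ hx hδ =>
    ((tendsto_rpow_neg_atTop hx).comp tendsto_natCast_atTop_atTop).eventually_le_const hδ
  have t1 := ev κ1 (c2 * ca / 16) hκ1 (by positivity)
  have t2 := ev s (c2 * c3 / 16) hs0 (by positivity)
  have t3 := ev (ε / 2) (c2 * Real.exp (-2) / 12) (by positivity) (by positivity)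
  have t4 : ∀ᶠ m : ℕ in atTop, 2 / κ ≤ (m : ℝ) :=
    tendsto_natCast_atTop_atTop.eventually_ge_atTop (2 / κ)
  obtain ⟨m0, hm0⟩ := Filter.eventually_atTop.1 (t1.and (t2.and (t3.and (t4.and
    (Filter.eventually_ge_atTop 4)))))
  refine ⟨m0, fun m hm => ?_⟩
  obtain ⟨w1, w2, w3, w4, w5⟩ := hm0 m hm
  have hmR : (4 : ℝ) ≤ m := by exact_mod_cast w5
  have hmp : (0 : ℝ) < m := by linarith
  have hlog : 0 < Real.log m := Real.log_pos (by linarith)
  have key := B0.steps h3 h4 h5 hc2 hκ0 hκ4 hκs hs0 hA hQ2 hQ3 m w5 w4 w1 w2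
  obtain ⟨y, hy⟩ : ∃ y, y = Real.sqrt (s * (m * Real.log m)) := ⟨_, rfl⟩
  obtain ⟨R, hR⟩ : ∃ R, R = 22 * (m * Real.sqrt m) := ⟨_, rfl⟩
  obtain ⟨N, hN⟩ : ∃ N, N = m - m / 2 := ⟨_, rfl⟩
  rw [← hy, ← hR] at key
  have hy0 : 0 ≤ y := by rw [hy]; exact Real.sqrt_nonneg _
  have hysq : y ^ 2 = s * (m * Real.log m) := by rw [hy]; exact Real.sq_sqrt (by positivity)
  have n1 : m / 2 + N = m := by omega
  have n2 : 1 ≤ N := by omega
  have n3 : (N : ℝ) ≤ m := by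
    have : N ≤ m := by omega
    exact_mod_cast this
  have n4 : (m : ℝ) ≤ 2 * N := by
    have : m ≤ 2 * N := by omega
    exact_mod_cast this
  have hNp : (0 : ℝ) < N := by linarith
  have hsm : 1 ≤ Real.sqrt m := by
    rw [Real.one_le_sqrt]
    linarith
  have hRN : (N : ℝ) * (1 + 20 * Real.sqrt N) ≤ R := by
    rw [hR]
    have g1 : Real.sqrt N ≤ Real.sqrt m := Real.sqrt_le_sqrt n3
    calc (N : ℝ) * (1 + 20 * Real.sqrt N) ≤ m * (1 + 20 * Real.sqrt m) :=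
          mul_le_mul n3 (by linarith) (by positivity) hmp.le
      _ ≤ m * (22 * Real.sqrt m) := mul_le_mul_of_nonneg_left (by linarith) hmp.le
      _ = 22 * (m * Real.sqrt m) := by ring
  have hbr := B0.bridge h2 m (m / 2) N n1 n2 R (2 * y) hRN
  refine le_trans ?_ hbr
  have haG0 : 0 ≤ aG m := measureReal_nonneg
  -- lower bound for the constant
  have k1 : 1 / (3 * Real.sqrt m) ≤ 1 / Real.sqrt (2 * Real.pi * N) := by
    refine one_div_le_one_div_of_le (by positivity) ?_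
    refine Real.sqrt_le_iff.2 ⟨by positivity, ?_⟩
    rw [mul_pow, Real.sq_sqrt hmp.le]
    have hpi := Real.pi_lt_d2
    have hpi0 := Real.pi_pos
    nlinarith
  have k2 : Real.exp (-2) * (m : ℝ) ^ (-(ε / 2)) ≤
      Real.exp (-((2 * y + 1) ^ 2 / (2 * N))) := by
    rw [Real.rpow_def_of_pos hmp, ← Real.exp_add]
    refine Real.exp_le_exp.2 ?_
    have g1 : (2 * y + 1) ^ 2 / (2 * N) ≤ 2 + Real.log m * (ε / 2) := by
      rw [div_le_iff₀ (by positivity)]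
      have g2 : (2 * y + 1) ^ 2 ≤ 8 * y ^ 2 + 2 := by nlinarith [sq_nonneg (2 * y - 1)]
      rw [hysq, hs] at g2
      have g3 : (2 + Real.log m * (ε / 2)) * m ≤ (2 + Real.log m * (ε / 2)) * (2 * N) :=
        mul_le_mul_of_nonneg_left n4 (by positivity)
      nlinarith
    linarith
  have k3 : (m : ℝ) ^ (-(1 / 2) - ε : ℝ) =
      1 / Real.sqrt m * ((m : ℝ) ^ (-(ε / 2)) * (m : ℝ) ^ (-(ε / 2))) := by
    have e1 : 1 / Real.sqrt m = (m : ℝ) ^ (-(1 / 2) : ℝ) := by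
      rw [Real.rpow_neg hmp.le, Real.sqrt_eq_rpow]
      exact one_div _
    have e2 : (-(1 / 2) - ε : ℝ) = -(1 / 2) + (-(ε / 2) + -(ε / 2)) := by ring
    rw [e1, e2, Real.rpow_add hmp, Real.rpow_add hmp]
  have hsp : 0 < Real.sqrt m := by linarith
  have hrp : 0 < (m : ℝ) ^ (-(ε / 2)) := Real.rpow_pos_of_pos hmp _
  calc (m : ℝ) ^ (-(1 / 2) - ε : ℝ) * aG m =
        1 / Real.sqrt m * ((m : ℝ) ^ (-(ε / 2)) * (m : ℝ) ^ (-(ε / 2))) * aG m := by rw [k3]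
    _ ≤ 1 / Real.sqrt m * ((m : ℝ) ^ (-(ε / 2)) * (c2 * Real.exp (-2) / 12)) * aG m := by
        refine mul_le_mul_of_nonneg_right ?_ haG0
        exact mul_le_mul_of_nonneg_left (mul_le_mul_of_nonneg_left w3 hrp.le) (by positivity)
    _ = 1 / 2 * (1 / (3 * Real.sqrt m) * (Real.exp (-2) * (m : ℝ) ^ (-(ε / 2)))) *
        (c2 / 2 * aG m) := by
        field_simp
        ring
    _ ≤ 1 / 2 * (1 / Real.sqrt (2 * Real.pi * N) * Real.exp (-((2 * y + 1) ^ 2 / (2 * N)))) *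
        GA.real (B0.Ee (m / 2) R (2 * y)) := by
        refine mul_le_mul ?_ key (by positivity) (by positivity)
        refine mul_le_mul_of_nonneg_left ?_ (by norm_num)
        exact mul_le_mul k1 k2 (by positivity) (by positivity)

end Pool.Agent.H448.GP174
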